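import Pool.Agent.H5.EG.Real

/-!
# MP_98cfca_co, Q1: there is no closed form for `W_j(x)`

For every `B` there are cycle types `j` for which the generating function `W_j(x)` by number of edges
of the even graphs fixed by a permutation of type `j` is not a sum of `B` terms, each a real constant
times a product, over the `k` of an arbitrary finite set, of integer (or even real) powers of `1 + x^k`
and `1 - x^k`. So Q1 has a negative answer: no closed form in the sense of the problem exists. More
precisely, for a permutation with `m` cycles of length `r`, `r` odd and large, at least `⌊m/2⌋` terms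
are needed (and `⌊m/2⌋ + 1` terms suffice).

Idea of the proof. Real exponents which are not integers do not help, because products of real
powers of the `1 - x^k` whose quotients are not rational are linearly independent over the rational
functions. Division by a power of `1 + x^r` turns `W_j` into
`2^(-m) ∑_k C(m,k) ((1-x^r)/(1+x^r))^(r k (m-k))`, a power series `W` with at most polynomial growth
near the unit circle; suppose `W = ∑_{t ≤ B} c_t f_t`, `f_t = exp (- ∑_n s_t(n) x^n / n)` with integer
coefficients, integers `s_t(n)` and bounded Nevanlinna characteristic.  The exponents and the `k`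
are unbounded, so nothing is known about the size of the `f_t`; but a Cartan-Jensen argument, in
which the Wronskian (for `x d/dx`) of the `f_t` divided by their product is a power series with integer
coefficients, so that its leading coefficient has absolute value at least `1`, bounds the mean of
`|log |f_t||` on the circle of radius `1 - 1/X²` by `Λ² log X²`, provided that it is so bounded on a
larger circle; here one passes to a subset of the `f_t` which are linearly independent modulo `x^X` and
represent `W` modulo `x^(X^6)`.  Descending through the scales one reaches an `X` which is at most a power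
of `r`.  There the `f_t` have small coefficients, so `W` is annihilated modulo `x^(X^6)` by a linear
differential operator in `x d/dx` of order at most `B` with integer coefficients polynomially bounded in
`r`.  In terms of `z` with `x^r = z / r`, `r → ∞`, its first terms give a polynomial differential
equation of order at most `B` for a positive combination of `exp (-2 k (m-k) z)`, `0 ≤ k ≤ m/2`, more than
`B` different exponents, which is impossible.
-/

set_option autoImplicit false

namespace Pool.Agent.Results.MP_98cfca_co.NoClosedFormExists

open Polynomial

open Classical in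
/-- `W α` is the sum of `X ^ |E(G)|` over the graphs `G` on the vertex set `V` all of whose degrees are
even and which satisfy `α(G) = G`. -/
noncomputable def W {V : Type} [Fintype V] (α : Equiv.Perm V) : ℤ[X] :=
  ∑ G ∈ (Finset.univ : Finset (SimpleGraph V)).filter
    (fun G => (∀ v, Even (G.degree v)) ∧ ∀ u v, G.Adj (α u) (α v) ↔ G.Adj u v),
    X ^ G.edgeFinset.card

/-- The polynomial `F` is, as a function on the interval `(0, 1)`, a sum of `B` terms, the `t`-th of which
is a real number `c t` times the product, over the elements `k` of a finite set `K t` of positive
integers, of a power of `1 + x^k` and a power of `1 - x^k`. The coefficients `c t`, the finite sets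
`K t` and the (real, in particular integer) exponents `a t k`, `b t k` are arbitrary. -/
def HasClosedForm (F : ℤ[X]) (B : ℕ) : Prop :=
  ∃ (c : Fin B → ℝ) (K : Fin B → Finset ℕ) (a b : Fin B → ℕ → ℝ), (∀ t, 0 ∉ K t) ∧
    ∀ x : ℝ, 0 < x → x < 1 →
      aeval x F = ∑ t, c t * ∏ k ∈ K t, (1 + x ^ k) ^ (a t k) * (1 - x ^ k) ^ (b t k)

/-- 1. There is no bound `B` such that for all `p` and all permutations `α` of `p` points the polynomial
`W α` has a closed form with `B` terms. 2. More precisely, if `m ≥ 2 B + 2` and `r` is odd and large,
then for every permutation `α` of `m r` points with `m` cycles of length `r` the polynomial `W α` has no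
closed form with `B` terms. -/
theorem result :
    (¬ ∃ B : ℕ, ∀ (p : ℕ) (α : Equiv.Perm (Fin p)), HasClosedForm (W α) B) ∧
    ∀ B m : ℕ, 2 * B + 2 ≤ m → ∃ r₀ : ℕ, ∀ r : ℕ, r₀ ≤ r → Odd r →
      ∀ α : Equiv.Perm (Fin (m * r)), α.cycleType = Multiset.replicate m r →
        ¬ HasClosedForm (W α) B := by
  have h : ∀ B m : ℕ, 2 * B + 2 ≤ m → ∃ r₀ : ℕ, ∀ r : ℕ, r₀ ≤ r → Odd r →
      ∀ α : Equiv.Perm (Fin (m * r)), α.cycleType = Multiset.replicate m r →
        ¬ HasClosedForm (W α) B := fun B m hm => Pool.Agent.H5.EG.main_real B m hm
  refine ⟨?_, h⟩
  rintro ⟨B, hB⟩
  obtain ⟨r₀, hr⟩ := h B (2 * B + 2) le_rfl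
  obtain ⟨α, hα⟩ := Pool.Agent.H5.EG.exists_type (2 * B + 2) (2 * (r₀ + 1) + 1) (by omega)
  exact hr (2 * (r₀ + 1) + 1) (by omega) ⟨r₀ + 1, rfl⟩ α hα (hB _ α)

end Pool.Agent.Results.MP_98cfca_co.NoClosedFormExists
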